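import Pool.Agent.R972.OP.Stm3
import Pool.Agent.Y665.FF.Milb

/-!
# From Poincare to the `L¹` inequality at all levels, for bodies (project OP2, piece BODY)
(adaptation of `Pool.Agent.Y665.FF.milb`)
-/

set_option autoImplicit false

namespace Pool.Agent.R310.OP2.Body

open MeasureTheory Set Filter Topology
open Pool.Agent.R972.OP
open Pool.Agent.W695.KH (Eu EU EV VV Sm Pot Uu)
open Pool.Agent.W12.KH (wt wt_cont wt_pos wt_int tend EU_eq t_lim)
open Pool.Agent.W880.KH (EU_le EU_sub_const EU_sub_sq)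
open Pool.Agent.Y665.FF (unif)
open scoped ENNReal InnerProductSpace Pointwise

variable {κ : Type} [Fintype κ]

theorem EU_mul (U : Eu κ → ℝ) (c : ℝ) (w : Eu κ → ℝ) :
    EU U (fun x => c * w x) = c * EU U w := by
  unfold EU
  rw [← integral_const_mul]
  congr 1
  funext x
  ring

theorem EV_mul (D : Set (Eu κ)) (c : ℝ) (w : Eu κ → ℝ) :
    EV D (fun x => c * w x) = c * EV D w := by
  unfold EV
  rw [integral_const_mul, mul_div_assoc]

theorem bodl (h : S_CORL) : S_BODL := by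
  intro κ _ D hD hconv hvol Cp hCp hPoi f L M hf hfb
  have hne : D.Nonempty := by
    by_contra h
    rw [not_nonempty_iff_eq_empty] at h
    rw [h] at hvol
    simp at hvol
  have hlim := t_lim κ D hD hconv hvol
  have hfin : volume D ≠ ⊤ := hD.measure_lt_top.ne
  have hV0 : 0 < (volume D).toReal := ENNReal.toReal_pos hvol.ne' hfin
  have hcont : Continuous f := hf.diff.continuous
  have hL : 0 ≤ L := (norm_nonneg _).trans (hf.grad 0)
  have hgc : Continuous fun x => ‖fderiv ℝ f x‖ :=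
    (hf.diff.continuous_fderiv one_ne_zero).norm
  set V := VV D f with hVdef
  set G := EV D (fun x => ‖fderiv ℝ f x‖) with hGdef
  have hG0 : 0 ≤ G := by
    rw [hGdef]
    unfold EV
    exact div_nonneg (integral_nonneg fun x => norm_nonneg _) hV0.le
  by_contra hcon
  push Not at hcon
  have hsq : 0 ≤ Real.sqrt Cp := Real.sqrt_nonneg _
  have hsq2 : Real.sqrt Cp ^ 2 = Cp := Real.sq_sqrt hCp.le
  have hV : 0 < V := lt_of_le_of_lt (by positivity) hcon
  have hV2 : 16 * Cp * G ^ 2 < V ^ 2 := by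
    have h1 : (4 * Real.sqrt Cp * G) ^ 2 < V ^ 2 := by
      apply pow_lt_pow_left₀ hcon (by positivity) two_ne_zero
    have h2 : (4 * Real.sqrt Cp * G) ^ 2 = 16 * Cp * G ^ 2 := by
      rw [mul_pow, mul_pow, hsq2]
      ring
    rwa [h2] at h1
  obtain ⟨c, hc1, hc2⟩ : ∃ c, 4 * G ^ 2 / V < c ∧ c < V / (4 * Cp) := by
    apply exists_between
    rw [div_lt_div_iff₀ hV (by positivity)]
    nlinarith
  have hc : 0 < c := lt_of_le_of_lt (by positivity) hc1
  obtain ⟨δ, hδ1, hδ2⟩ : ∃ δ, Cp * c < δ ∧ δ < V / 4 := by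
    apply exists_between
    rw [lt_div_iff₀ (by positivity)] at hc2
    linarith
  have hδ : 0 < δ := lt_trans (by positivity) hδ1
  set L0 : ℝ := max (max L M) 1 with hL0
  have hL01 : 1 ≤ L0 := le_max_right _ _
  have hgap : 0 < δ / Cp - c := by
    have : c < δ / Cp := by
      rw [lt_div_iff₀ hCp]
      linarith
    linarith
  have hden : 0 < 6 / Cp + 2 * L0 ^ 2 := by positivity
  set τ0 : ℝ := (δ / Cp - c) / (6 / Cp + 2 * L0 ^ 2) with hτ0
  have hτ0p : 0 < τ0 := div_pos hgap hden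
  have ht1 := hlim f 1 hcont (fun x => by
    have := hf.bdd x
    nlinarith [sq_nonneg ‖x‖])
  have ht2 := hlim (fun x => f x ^ 2) 1 (hcont.pow 2) (fun x => by
    have h1 := hf.bdd x
    have h2 : |f x ^ 2| ≤ 1 := by
      rw [abs_pow]
      exact pow_le_one₀ (abs_nonneg _) h1
    nlinarith [sq_nonneg ‖x‖])
  have ht3 := hlim (fun x => ‖fderiv ℝ f x‖) L hgc (fun x => by
    have h1 := hf.grad x
    rw [abs_norm]
    nlinarith [sq_nonneg ‖x‖, mul_nonneg hL (sq_nonneg ‖x‖)])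
  have hv : Tendsto (fun A : ℝ => EU (Uu D A) (fun x => f x ^ 2) - EU (Uu D A) f ^ 2) atTop
      (𝓝 V) := ht2.sub (ht1.pow 2)
  have hr : Tendsto (fun A : ℝ => 4 / c * (EU (Uu D A) fun x => ‖fderiv ℝ f x‖) ^ 2) atTop
      (𝓝 (4 / c * G ^ 2)) := (ht3.pow 2).const_mul _
  have hZ : Tendsto (fun A : ℝ => ∫ x, wt D A x) atTop (𝓝 (volume D).toReal) := by
    have h2 := tend (κ := κ) hD hne (g := fun _ => 1) (B := 1) continuous_const
      (fun x => by rw [abs_one, one_mul]; nlinarith [sq_nonneg ‖x‖])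
    have h3 : (∫ _x in D, (1 : ℝ)) = (volume D).toReal := by
      simp [Measure.real]
    rw [h3] at h2
    simpa using h2
  have hτ : Tendsto (fun A : ℝ => 1 - (volume D).toReal / ∫ x, wt D A x) atTop (𝓝 0) := by
    have h2 := (tendsto_const_nhds (x := (volume D).toReal) (f := (atTop : Filter ℝ))).div hZ
      hV0.ne'
    rw [div_self hV0.ne'] at h2
    have h3 := (tendsto_const_nhds (x := (1 : ℝ)) (f := (atTop : Filter ℝ))).sub h2
    rw [sub_self] at h3
    exact h3
  have hfinal : V ≤ 4 / c * G ^ 2 := by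
    refine le_of_tendsto_of_tendsto hv hr ?_
    filter_upwards [hτ.eventually_lt_const hτ0p,
      hv.eventually (lt_mem_nhds (show 4 * δ < V by linarith)),
      eventually_gt_atTop 0] with A hA1 hA2 hA3
    obtain ⟨⟨b, hb⟩, hA4, _⟩ := Pool.Agent.W762.KH.t_proj κ D hD hconv hne A hA3
    set τ : ℝ := 1 - (volume D).toReal / ∫ x, wt D A x with hτdef
    have hWP : ∀ v : Eu κ → ℝ, ContDiff ℝ 1 v → (∀ x, |v x| ≤ 1) →
        (∀ x, ‖fderiv ℝ v x‖ ≤ L0) →
        δ ≤ EU (Uu D A) (fun x => v x ^ 2) - EU (Uu D A) v ^ 2 →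
        c ≤ EU (Uu D A) fun x => ‖fderiv ℝ v x‖ ^ 2 := by
      intro v hv1 hv2 hv3 hv5
      have h1 := hPoi v hv1
      have hv4 : ∀ x, |v x ^ 2| ≤ 1 := fun x => by
        rw [abs_pow]
        exact pow_le_one₀ (abs_nonneg _) (hv2 x)
      obtain ⟨k1, k2⟩ := unif hD hne hvol hA3 hv1.continuous hv2
      obtain ⟨k3, k4⟩ := unif (w := fun x => v x ^ 2) hD hne hvol hA3 (hv1.continuous.pow 2) hv4
      have k5 := EU_le (Uu D A) hA4 v hv1.continuous 1 hv2
      have hwc : Continuous fun x => (1 / L0 ^ 2) * ‖fderiv ℝ v x‖ ^ 2 :=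
        continuous_const.mul ((hv1.continuous_fderiv one_ne_zero).norm.pow 2)
      have hL02 : 0 < L0 ^ 2 := by positivity
      have hw1 : ∀ x, |(1 / L0 ^ 2) * ‖fderiv ℝ v x‖ ^ 2| ≤ 1 := by
        intro x
        rw [abs_of_nonneg (by positivity), one_div, inv_mul_le_iff₀ hL02, mul_one]
        exact pow_le_pow_left₀ (norm_nonneg _) (hv3 x) 2
      obtain ⟨k6, -⟩ := unif (w := fun x => (1 / L0 ^ 2) * ‖fderiv ℝ v x‖ ^ 2) hD hne hvol hA3
        hwc hw1
      rw [EU_mul, EV_mul, ← mul_sub, abs_mul, abs_of_pos (by positivity : 0 < 1 / L0 ^ 2)] at k6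
      have k7 : |EU (Uu D A) (fun x => ‖fderiv ℝ v x‖ ^ 2) - EV D fun x => ‖fderiv ℝ v x‖ ^ 2| ≤
          2 * L0 ^ 2 * τ := by
        have e1 : 1 / L0 ^ 2 * |EU (Uu D A) (fun x => ‖fderiv ℝ v x‖ ^ 2) -
            EV D fun x => ‖fderiv ℝ v x‖ ^ 2| * L0 ^ 2 =
            |EU (Uu D A) (fun x => ‖fderiv ℝ v x‖ ^ 2) - EV D fun x => ‖fderiv ℝ v x‖ ^ 2| := by
          field_simp
        rw [← e1]
        calc _ ≤ 2 * (1 - (volume D).toReal / ∫ x, wt D A x) * L0 ^ 2 :=
              mul_le_mul_of_nonneg_right k6 hL02.le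
          _ = 2 * L0 ^ 2 * τ := by rw [hτdef]; ring
      have e : EU (Uu D A) (fun x => v x ^ 2) - EU (Uu D A) v ^ 2 =
          VV D v + (EU (Uu D A) (fun x => v x ^ 2) - EV D (fun x => v x ^ 2)) -
            (EU (Uu D A) v - EV D v) * (EU (Uu D A) v + EV D v) := by
        unfold VV
        ring
      have h2 : |(EU (Uu D A) v - EV D v) * (EU (Uu D A) v + EV D v)| ≤ 2 * τ * 2 := by
        rw [abs_mul]
        have h3 : |EU (Uu D A) v + EV D v| ≤ 2 := by
          have := abs_add_le (EU (Uu D A) v) (EV D v)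
          linarith
        exact mul_le_mul k1 h3 (abs_nonneg _) ((abs_nonneg _).trans k1)
      have h3 := neg_abs_le ((EU (Uu D A) v - EV D v) * (EU (Uu D A) v + EV D v))
      have h4 := le_abs_self (EU (Uu D A) (fun x => v x ^ 2) - EV D (fun x => v x ^ 2))
      have h5 : δ - 6 * τ ≤ VV D v := by
        have k3' : |EU (Uu D A) (fun x => v x ^ 2) - EV D (fun x => v x ^ 2)| ≤ 2 * τ := k3
        linarith
      have h6 : (δ - 6 * τ) / Cp ≤ EV D fun x => ‖fderiv ℝ v x‖ ^ 2 := by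
        rw [div_le_iff₀ hCp]
        linarith
      have h7 := neg_abs_le (EU (Uu D A) (fun x => ‖fderiv ℝ v x‖ ^ 2) -
        EV D fun x => ‖fderiv ℝ v x‖ ^ 2)
      have h8 : τ * (6 / Cp + 2 * L0 ^ 2) ≤ δ / Cp - c := by
        have := (lt_div_iff₀ hden).1 hA1
        linarith
      have h9 : (δ - 6 * τ) / Cp = δ / Cp - τ * (6 / Cp) := by ring
      linarith
    obtain ⟨m, hm⟩ : ∃ m, m = EU (Uu D A) f := ⟨_, rfl⟩
    have hmb : |m| ≤ 1 / 2 := hm ▸ EU_le (Uu D A) hA4 f hcont (1 / 2) hfb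
    have hfd : ∀ x, fderiv ℝ (fun y => f y - m) x = fderiv ℝ f x := by
      intro x
      rw [fderiv_sub_const]
    have hS : Sm (fun x => f x - m) L M := by
      refine ⟨?_, hf.diff.sub contDiff_const, ?_, ?_⟩
      · intro x
        have h1 := hfb x
        have h2 : |f x - m| ≤ |f x| + |m| := abs_sub _ _
        linarith
      · intro x
        rw [hfd]
        exact hf.grad x
      · intro x y
        rw [hfd, hfd]
        exact hf.lip x y
    have h1 : EU (Uu D A) (fun x => f x - m) = 0 := by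
      rw [EU_sub_const (Uu D A) hA4 f hcont (1 / 2) hfb m, hm, sub_self]
    have h2 : EU (Uu D A) (fun x => (f x - m) ^ 2) =
        EU (Uu D A) (fun x => f x ^ 2) - EU (Uu D A) f ^ 2 := by
      rw [EU_sub_sq (Uu D A) hA4 f hcont (1 / 2) hfb m, ← hm]
      ring
    have h3 := h κ (Uu D A) b A hb hA4 δ c hδ hc (fun x => f x - m) L M hS hWP h1
      (by rw [h2]; exact hA2)
    rw [h2] at h3
    simp only [hfd] at h3
    exact h3
  rw [div_lt_iff₀ hV] at hc1
  have h9 : V * c ≤ 4 * G ^ 2 := by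
    have : 4 / c * G ^ 2 = 4 * G ^ 2 / c := by ring
    rw [this, le_div_iff₀ hc] at hfinal
    exact hfinal
  linarith

end Pool.Agent.R310.OP2.Body
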