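import Pool.Agent.R972.OP.Stm3

/-!
# Volumes of order simplices (project OP2, piece VOL)
-/

set_option autoImplicit false

namespace Pool.Agent.R310.OP2.Vol

open Pool.Agent.R972.OP
open MeasureTheory Set Filter Topology
open scoped ENNReal

variable {n : ℕ}

theorem perm (p : Equiv.Perm (Fin n)) :
    MeasurePreserving (fun (x : Fin n → ℝ) i => x (p i)) volume volume := by
  have h := volume_measurePreserving_piCongrLeft (fun _ : Fin n => ℝ) p.symm
  have e : (MeasurableEquiv.piCongrLeft (fun _ : Fin n => ℝ) p.symm : (Fin n → ℝ) → (Fin n → ℝ))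
      = fun x i => x (p i) := by
    funext x i
    rw [MeasurableEquiv.coe_piCongrLeft]
    have := Equiv.piCongrLeft_apply_apply (P := fun _ : Fin n => ℝ) p.symm x (p i)
    simpa using this
  rwa [e] at h

theorem ties : ∀ᵐ x : Fin n → ℝ, Function.Injective x := by
  have h : ∀ i j : Fin n, i ≠ j → ∀ᵐ x : Fin n → ℝ, x i ≠ x j := by
    intro i j hij
    let S : Submodule ℝ (Fin n → ℝ) := LinearMap.ker
      ((LinearMap.proj i : (Fin n → ℝ) →ₗ[ℝ] ℝ) - LinearMap.proj j)
    have hS : S ≠ ⊤ := by
      intro hS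
      have h1 : (Pi.single i 1 : Fin n → ℝ) ∈ S := by rw [hS]; trivial
      rw [LinearMap.mem_ker] at h1
      simp [Pi.single_apply, hij.symm] at h1
    have h0 := Measure.addHaar_submodule (volume : Measure (Fin n → ℝ)) S hS
    rw [ae_iff]
    refine measure_mono_null ?_ h0
    intro x hx
    simp only [ne_eq, not_not, mem_ofPred_eq] at hx
    show x ∈ S
    rw [LinearMap.mem_ker]
    simp [hx]
  have h2 : ∀ᵐ x : Fin n → ℝ, ∀ i j : Fin n, i ≠ j → x i ≠ x j := by
    rw [ae_all_iff]
    intro i
    rw [ae_all_iff]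
    intro j
    by_cases hij : i = j
    · exact Eventually.of_forall fun x h => absurd hij h
    · filter_upwards [h i j hij] with x hx _
      exact hx
  filter_upwards [h2] with x hx i j hij
  by_contra hne
  exact hx i j hne hij

theorem null_ties : volume {x : Fin n → ℝ | ¬ Function.Injective x} = 0 := ae_iff.1 ties

theorem closed_Sx (s : Equiv.Perm (Fin n)) : IsClosed (Sx s) := by
  have h : Sx s = (⋂ i, ({x | 0 ≤ x i} ∩ {x | x i ≤ 1})) ∩
      ⋂ i, ⋂ j, ⋂ (_ : i ≤ j), {x | x (s i) ≤ x (s j)} := by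
    ext x
    simp only [Sx, mem_ofPred_eq, mem_inter_iff, mem_iInter, Monotone]
  rw [h]
  exact (isClosed_iInter fun i => (isClosed_le continuous_const (continuous_apply i)).inter
    (isClosed_le (continuous_apply i) continuous_const)).inter (isClosed_iInter fun i =>
      isClosed_iInter fun j => isClosed_iInter fun _ =>
        isClosed_le (continuous_apply _) (continuous_apply _))

theorem vol_eq (s : Equiv.Perm (Fin n)) : volume (Sx s) = volume (Sx (1 : Equiv.Perm (Fin n))) := by
  have h : Sx s = (fun (x : Fin n → ℝ) i => x (s i)) ⁻¹' Sx (1 : Equiv.Perm (Fin n)) := by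
    ext x
    simp only [Sx, mem_ofPred_eq, mem_preimage, Equiv.Perm.coe_one, id_eq]
    refine and_congr ⟨fun h i => h (s i), fun h i => ?_⟩ Iff.rfl
    have := h (s.symm i)
    simpa using this
  rw [h]
  exact (perm s).measure_preimage (closed_Sx 1).measurableSet.nullMeasurableSet

theorem disj (s t : Equiv.Perm (Fin n)) (hst : s ≠ t) : AEDisjoint volume (Sx s) (Sx t) := by
  refine measure_mono_null ?_ null_ties
  rintro x ⟨h1, h2⟩ hx
  apply hst
  have m1 : StrictMono fun i => x (s i) := h1.2.strictMono_of_injective (hx.comp s.injective)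
  have m2 : StrictMono fun i => x (t i) := h2.2.strictMono_of_injective (hx.comp t.injective)
  have h3 : (fun i => x (s i)) = fun i => x (t i) := by
    apply (StrictMono.range_inj m1 m2).1
    have e1 : Set.range (fun i => x (s i)) = Set.range x := by
      have : (fun i => x (s i)) = x ∘ s := rfl
      rw [this, s.surjective.range_comp]
    have e2 : Set.range (fun i => x (t i)) = Set.range x := by
      have : (fun i => x (t i)) = x ∘ t := rfl
      rw [this, t.surjective.range_comp]
    rw [e1, e2]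
  ext i
  have := hx (congrFun h3 i)
  rw [this]

theorem US_eq (T : Finset (Equiv.Perm (Fin n))) : US T = ⋃ s ∈ T, Sx s := by
  ext x
  simp [US]

theorem vol_US (T : Finset (Equiv.Perm (Fin n))) :
    volume (US T) = T.card * volume (Sx (1 : Equiv.Perm (Fin n))) := by
  rw [US_eq, measure_biUnion_finset₀ (fun s _ t _ hst => disj s t hst)
    (fun s _ => (closed_Sx s).measurableSet.nullMeasurableSet), Finset.sum_congr rfl
    (fun s _ => vol_eq s), Finset.sum_const, nsmul_eq_mul]

theorem cube : US (Finset.univ : Finset (Equiv.Perm (Fin n))) = Icc 0 1 := by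
  ext x
  constructor
  · rintro ⟨s, -, h, -⟩
    exact ⟨fun i => (h i).1, fun i => (h i).2⟩
  · rintro ⟨h1, h2⟩
    exact ⟨Tuple.sort x, Finset.mem_univ _, fun i => ⟨h1 i, h2 i⟩, Tuple.monotone_sort x⟩

theorem vol_one : volume (Sx (1 : Equiv.Perm (Fin n))) = ENNReal.ofReal (1 / n.factorial) := by
  have h1 := vol_US (Finset.univ : Finset (Equiv.Perm (Fin n)))
  rw [cube, Real.volume_Icc_pi, Finset.card_univ, Fintype.card_perm, Fintype.card_fin] at h1
  simp only [Pi.one_apply, Pi.zero_apply, sub_zero, ENNReal.ofReal_one, Finset.prod_const_one] at h1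
  have h2 : (n.factorial : ℝ≥0∞) ≠ 0 := by exact_mod_cast n.factorial_ne_zero
  have h3 : (n.factorial : ℝ≥0∞) ≠ ⊤ := ENNReal.natCast_ne_top _
  have h4 : volume (Sx (1 : Equiv.Perm (Fin n))) = (n.factorial : ℝ≥0∞)⁻¹ :=
    ENNReal.eq_inv_of_mul_eq_one_left (by rw [mul_comm]; exact h1.symm)
  have h5 : (0 : ℝ) < n.factorial := by exact_mod_cast n.factorial_pos
  rw [h4, one_div, ENNReal.ofReal_inv_of_pos h5, ENNReal.ofReal_natCast]

theorem main : S_VOL := by
  intro n r E hE
  refine ⟨fun T hT => ⟨?_, ?_⟩, ?_⟩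
  · rintro x ⟨s, hs, hx, hm⟩
    refine ⟨hx, fun a b hab => ?_⟩
    have h1 := (hE s).1 (hT hs) (s.symm a) (s.symm b) (by simpa using hab)
    have h2 := hm h1
    simpa using h2
  · rw [vol_US, vol_one, ← ENNReal.ofReal_natCast, ← ENNReal.ofReal_mul (Nat.cast_nonneg _)]
    congr 1
    ring
  · refine measure_mono_null ?_ null_ties
    rintro x ⟨hx, hxE⟩ hinj
    apply hxE
    have hs : StrictMono (x ∘ Tuple.sort x) :=
      (Tuple.monotone_sort x).strictMono_of_injective (hinj.comp (Tuple.sort x).injective)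
    refine ⟨Tuple.sort x, (hE _).2 fun i j hij => ?_, hx.1, Tuple.monotone_sort x⟩
    have h1 := hx.2 _ _ hij
    exact hs.le_iff_le.1 h1

end Pool.Agent.R310.OP2.Vol
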